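import Pool.Agent.H622R2.Exp.FinalE
import Pool.Agent.H622R2.Exp.F2
import Pool.Agent.H622R2.Exp.E0
import Pool.Agent.H620R2.Gauge.Comb
import Pool.Agent.H620R2.Gauge.Cover
import Pool.Agent.H620R2.Gauge2.Null

/-!
# The set of the oracles for which exponential space is in the exponential hierarchy

(helper249; the parity test language, the counting lemma `comb` and the lower bounds for the size
are from `Pool.Agent.H620R2.Gauge` and `Pool.Agent.H622R2.Exp`)
-/

set_option autoImplicit false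

namespace Pool.Agent.H249R3.Gau

open Pool.Agent.NPC Pool.Agent.H620R2.Gauge Pool.Agent.H622R2.Exp Finset H568R2 Filter YAux
open Pool.Agent.H676

namespace Alt

/-- a bound for the length of all strings -/
noncomputable def ell (q : Polynomial ℕ) (k n : ℕ) : ℕ := n + k * (2 * 2 ^ q.eval n + 1)

/-- The event: `k` alternations decide the parity test language for the inputs of length `n`. -/
def EvA (M : Alg) (q : Polynomial ℕ) (k n N : ℕ) (a : Fin N → Bool) : Prop :=
  ∀ j ∈ Finset.range (2 ^ n),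
    QF (2 ^ q.eval n) (leaf M N) k true (bitsOf n j) a = par (blk N (padq q4 (bitsOf n j))) a

/-- the exponent -/
theorem exists_r {E : Set (Polynomial ℕ)} (hE : Good E) {q : Polynomial ℕ} (hq : q ∈ E) (k : ℕ)
    (qb p : Polynomial ℕ) : ∃ r ∈ E, ∀ n, qb.eval (ell q k n) + (3 * mm n + 1) +
      p.eval (ell q k n) + (ell q k n + k + 2 + 2 ^ n) + 1 ≤ 2 ^ r.eval n := by
  set P1 : Polynomial ℕ := Polynomial.X + Polynomial.C k * (Polynomial.C 2 * Polynomial.X + 1)
    with hP1
  obtain ⟨r, hr, hb⟩ := hE.comp (q + q4) (hE.add q hq q4 (hE.lin 4))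
    (qb.comp P1 + (Polynomial.C 9 * Polynomial.X + Polynomial.C 4) + p.comp P1 +
      (P1 + Polynomial.C (k + 2) + Polynomial.X) + 1)
  refine ⟨r, hr, fun n => le_trans ?_ (hb n)⟩
  have h4 : q4.eval n = 4 * (n + 1) := by
    unfold q4
    simp only [Polynomial.eval_mul, Polynomial.eval_C, Polynomial.eval_add, Polynomial.eval_X,
      Polynomial.eval_one]
  set Z : ℕ := n + 2 ^ (q + q4).eval n with hZ
  have h1 : 2 ^ (4 * (n + 1)) ≤ 2 ^ (q + q4).eval n := by
    apply Nat.pow_le_pow_right (by norm_num)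
    rw [Polynomial.eval_add, h4]
    omega
  have h2 : 2 ^ q.eval n ≤ 2 ^ (q + q4).eval n := by
    apply Nat.pow_le_pow_right (by norm_num)
    rw [Polynomial.eval_add]
    omega
  have h3 : 2 ^ n ≤ 2 ^ (4 * (n + 1)) := Nat.pow_le_pow_right (by norm_num) (by omega)
  have hp1 : 0 < 2 ^ (q + q4).eval n := by positivity
  have hp2 : 0 < 2 ^ q.eval n := by positivity
  have hp3 : 0 < 2 ^ n := by positivity
  have h5 : ell q k n ≤ P1.eval Z := by
    rw [hP1]
    simp only [Polynomial.eval_mul, Polynomial.eval_C, Polynomial.eval_add, Polynomial.eval_X,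
      Polynomial.eval_one]
    unfold ell
    have : k * (2 * 2 ^ q.eval n + 1) ≤ k * (2 * Z + 1) := Nat.mul_le_mul_left _ (by omega)
    omega
  have h6 : 3 * mm n + 1 ≤ 9 * Z + 4 := by
    unfold mm
    omega
  have h7 : qb.eval (ell q k n) ≤ qb.eval (P1.eval Z) := eval_mono _ h5
  have h8 : p.eval (ell q k n) ≤ p.eval (P1.eval Z) := eval_mono _ h5
  have h9 : (qb.comp P1 + (Polynomial.C 9 * Polynomial.X + Polynomial.C 4) + p.comp P1 +
      (P1 + Polynomial.C (k + 2) + Polynomial.X) + 1).eval Z =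
      qb.eval (P1.eval Z) + (9 * Z + 4) + p.eval (P1.eval Z) + (P1.eval Z + (k + 2) + Z) + 1 := by
    simp only [Polynomial.eval_mul, Polynomial.eval_C, Polynomial.eval_add, Polynomial.eval_X,
      Polynomial.eval_one, Polynomial.eval_comp]
  rw [h9]
  omega

theorem second_le (r : Polynomial ℕ) (k : ℕ) : ∀ᶠ n : ℕ in atTop,
    (n + (n + r.eval n + 1) + 2 ^ n) * (24 * 2 ^ r.eval n) ^ k * (2 ^ n * 2 ^ r.eval n + 1) ≤
      2 ^ mm n := by
  have hX : E0.TB (fun n => 2 ^ n) := by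
    have := E0.TB.pow2 (Polynomial.X : Polynomial ℕ)
    simpa using this
  have hr : E0.TB (fun n => r.eval n) := E0.TB.id.eval r
  have hr2 : E0.TB (fun n => 2 ^ r.eval n) := E0.TB.pow2 r
  have h1 : E0.TB (fun n => (n + (n + r.eval n + 1) + 2 ^ n)) :=
    (E0.TB.id.add ((E0.TB.id.add hr).add (E0.TB.const 1))).add hX
  have h2 : E0.TB (fun n => (24 * 2 ^ r.eval n) ^ k) := ((E0.TB.const 24).mul hr2).pow k
  have h3 : E0.TB (fun n => 2 ^ n * 2 ^ r.eval n + 1) := (hX.mul hr2).add (E0.TB.const 1)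
  filter_upwards [((h1.mul h2).mul h3).le] with n hn
  refine hn.trans (Nat.pow_le_pow_right (by norm_num) ?_)
  have h4 := E0.mm_ge n
  have h5 : 2 ^ n ≤ 2 ^ (n + 3) := Nat.pow_le_pow_right (by norm_num) (by omega)
  omega

theorem few (T k s e : ℕ) (hT : 1 ≤ T) (h : e * (24 * T) ^ k ≤ s) :
    (1 - (1 / (24 * (T : ℝ))) ^ k) ^ s ≤ (1 / 2) ^ e := by
  have hTR : (1 : ℝ) ≤ T := by exact_mod_cast hT
  set y : ℝ := (1 / (24 * (T : ℝ))) ^ k with hy
  have hy0 : 0 ≤ y := by positivity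
  have hy1 : y ≤ 1 := by
    refine pow_le_one₀ (by positivity) ?_
    rw [div_le_one (by positivity)]
    linarith
  have h1 : (e : ℝ) ≤ y * s := by
    have h2 : (e : ℝ) * (24 * T) ^ k ≤ s := by exact_mod_cast h
    have h3 : y * (24 * (T : ℝ)) ^ k = 1 := by
      rw [hy, ← mul_pow, one_div, inv_mul_cancel₀ (by positivity), one_pow]
    calc (e : ℝ) = y * (e * (24 * T) ^ k) := by
          rw [mul_left_comm, h3, mul_one]
      _ ≤ y * s := mul_le_mul_of_nonneg_left h2 hy0
  calc (1 - y) ^ s ≤ (Real.exp (-y)) ^ s :=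
        pow_le_pow_left₀ (by linarith) (Real.one_sub_le_exp_neg y) s
    _ = Real.exp (-(y * s)) := by
        rw [← Real.exp_nat_mul]; congr 1; ring
    _ ≤ Real.exp (-e) := Real.exp_le_exp.2 (by linarith)
    _ = (Real.exp (-1)) ^ e := by
        rw [← Real.exp_nat_mul]; congr 1; ring
    _ ≤ (1 / 2) ^ e := by
        apply pow_le_pow_left₀ (Real.exp_pos _).le
        rw [Real.exp_neg, one_div]
        have := Real.add_one_le_exp (1 : ℝ)
        exact inv_anti₀ (by norm_num) (by linarith)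

theorem two_half (a : ℕ) : (2 : ℝ) ^ a * (1 / 2) ^ a = 1 := by
  rw [← mul_pow]; norm_num

open Classical in
theorem evA_bound (M : Alg) (q : Polynomial ℕ) (k : ℕ) (r : Polynomial ℕ)
    (hr : ∀ n, 3 * mm n + 1 ≤ 2 ^ r.eval n ∧ M.p.eval (ell q k n) ≤ 2 ^ r.eval n ∧
      ell q k n + k + 2 + 2 ^ n ≤ 2 ^ r.eval n) :
    ∃ n₀ : ℕ, ∀ n ≥ n₀, ∀ N : ℕ, 2 ^ 2 ^ r.eval n ≤ N →
      Ex unif (fun a : Fin N → Bool => if EvA M q k n N a then (1 : ℝ) else 0) ≤
        3 * (11 / 12) ^ 2 ^ n := by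
  obtain ⟨n₀, hn₀⟩ := Filter.eventually_atTop.1 (second_le r k)
  refine ⟨n₀, fun n hn N hN => ?_⟩
  obtain ⟨hr1, hr2, hr3⟩ := hr n
  have hG := hn₀ n hn
  have hpl : ∀ i, (padq q4 (bitsOf n i)).length = mm n := fun i => by
    rw [E0.length_padq4, length_bitsOf]
  have hN1 : 2 ^ (2 * mm n + 1) ≤ N + 1 := by
    have : 2 ^ (2 * mm n + 1) ≤ 2 ^ 2 ^ r.eval n := Nat.pow_le_pow_right (by norm_num) (by omega)
    omega
  set T : ℕ := 2 ^ r.eval n with hT
  set K : ℕ := 2 ^ n with hK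
  set m : ℕ := 2 ^ q.eval n with hm
  have hT1 : 1 ≤ T := Nat.one_le_two_pow
  have hTR : (1 : ℝ) ≤ (T : ℝ) := by exact_mod_cast hT1
  set q' : ℝ := 1 / (24 * T) with hq'
  have hq0 : 0 ≤ q' := by positivity
  have hq1 : q' ≤ 1 / 3 := by
    rw [hq', div_le_div_iff₀ (by positivity) (by norm_num)]
    linarith
  have hell : ell q k n = n + k * (2 * m + 1) := rfl
  have h1 := comb (I := Fin N) hT1 hq0 hq1 m (leaf M N) k n (by
      intro y hy
      refine (dtr_out M N y).mono ?_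
      exact (eval_mono _ hy).trans hr2) (Finset.range K)
      (fun j => blk N (padq q4 (bitsOf n j))) (by
      intro j hj j' hj' hne
      rw [Finset.mem_range] at hj hj'
      apply blk_disj
      · rw [hpl, hpl]
      · intro h
        exact hne (bitsOf_inj hj hj' (E0.padq_inj h))) ({()} : Finset Unit)
      (fun j _ => bitsOf n j) (by
      intro j _ h _
      rw [length_bitsOf]) (K * T) (2 ^ mm n / (K * T + 1)) (by rw [Finset.card_range]) (by
      intro j _
      rw [blk_card N _ (by rw [hpl]; exact hN1), hpl]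
      exact Nat.mul_div_le _ _)
  have h2 : ∀ a : Fin N → Bool, EvA M q k n N a ↔ ∃ h ∈ ({()} : Finset Unit),
      ∀ j ∈ Finset.range K, QF m (leaf M N) k true (bitsOf n j) a =
        par (blk N (padq q4 (bitsOf n j))) a := by
    intro a
    constructor
    · intro h
      exact ⟨(), Finset.mem_singleton_self _, h⟩
    · rintro ⟨_, _, h⟩
      exact h
  have h3 : Ex unif (fun a : Fin N → Bool => if EvA M q k n N a then (1 : ℝ) else 0) ≤
      k * 2 ^ (n + k * (2 * m + 1) + 2) * (12 * T * q') ^ (T + 1) +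
        K * ((((K * T : ℕ) : ℝ) + 1) * (1 - q' ^ k) ^ (2 ^ mm n / (K * T + 1))) +
        1 * (1 / 2) ^ K := by
    refine le_trans (le_of_eq ?_) (h1.trans (le_of_eq ?_))
    · congr 1
      funext a
      by_cases h : EvA M q k n N a
      · rw [if_pos h, if_pos ((h2 a).1 h)]
      · rw [if_neg h, if_neg (fun h' => h ((h2 a).2 h'))]
    · rw [Finset.card_range, Finset.card_singleton, Nat.cast_one]
  have hqt : 12 * (T : ℝ) * q' = 1 / 2 := by
    rw [hq']; field_simp; norm_num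
  rw [hqt] at h3
  -- first term
  have t1 : (k : ℝ) * 2 ^ (n + k * (2 * m + 1) + 2) * (1 / 2) ^ (T + 1) ≤ (1 / 2) ^ K := by
    have hk : (k : ℝ) ≤ 2 ^ k := by exact_mod_cast Nat.lt_two_pow_self.le
    have e1 : (k : ℝ) * 2 ^ (n + k * (2 * m + 1) + 2) ≤ 2 ^ (ell q k n + k + 2) := by
      calc (k : ℝ) * 2 ^ (n + k * (2 * m + 1) + 2) ≤ 2 ^ k * 2 ^ (n + k * (2 * m + 1) + 2) :=
            mul_le_mul_of_nonneg_right hk (by positivity)
        _ = 2 ^ (ell q k n + k + 2) := by rw [← pow_add, hell]; congr 1; ring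
    calc (k : ℝ) * 2 ^ (n + k * (2 * m + 1) + 2) * (1 / 2) ^ (T + 1) ≤
          2 ^ (ell q k n + k + 2) * (1 / 2) ^ ((ell q k n + k + 2) + K) := by
          apply mul_le_mul e1 _ (by positivity) (by positivity)
          exact pow_le_pow_of_le_one (by norm_num) (by norm_num) (by omega)
      _ = (2 ^ (ell q k n + k + 2) * (1 / 2) ^ (ell q k n + k + 2)) * (1 / 2) ^ K := by
          rw [pow_add (1 / 2 : ℝ) (ell q k n + k + 2) K, mul_assoc]
      _ = (1 / 2) ^ K := by rw [two_half, one_mul]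
  -- second term
  set e : ℕ := n + (n + r.eval n + 1) + 2 ^ n with he
  have t2 : (K : ℝ) * ((((K * T : ℕ) : ℝ) + 1) * (1 - q' ^ k) ^ (2 ^ mm n / (K * T + 1))) ≤
      (1 / 2) ^ K := by
    have e1 : e * (24 * T) ^ k ≤ 2 ^ mm n / (K * T + 1) := by
      rw [Nat.le_div_iff_mul_le (by positivity)]
      exact hG
    have e2 := few T k _ e hT1 e1
    have e3 : ((K * T : ℕ) : ℝ) + 1 ≤ 2 ^ (n + r.eval n + 1) := by
      have : K * T + 1 ≤ 2 ^ (n + r.eval n + 1) := by
        have h5 : K * T = 2 ^ (n + r.eval n) := by rw [pow_add]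
        have h6 : 1 ≤ 2 ^ (n + r.eval n) := Nat.one_le_two_pow
        rw [h5, pow_succ]
        omega
      exact_mod_cast this
    have e4 : (K : ℝ) = 2 ^ n := by rw [hK]; push_cast; rfl
    calc (K : ℝ) * ((((K * T : ℕ) : ℝ) + 1) * (1 - q' ^ k) ^ (2 ^ mm n / (K * T + 1))) ≤
          2 ^ n * (2 ^ (n + r.eval n + 1) * (1 / 2) ^ e) := by
          rw [e4]
          apply mul_le_mul_of_nonneg_left _ (by positivity)
          apply mul_le_mul e3 e2 _ (by positivity)
          apply pow_nonneg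
          have : q' ^ k ≤ 1 := pow_le_one₀ hq0 (by linarith)
          linarith
      _ = 2 ^ (n + (n + r.eval n + 1)) * (1 / 2) ^ (n + (n + r.eval n + 1) + K) := by
          rw [← mul_assoc, ← pow_add]
      _ = (2 ^ (n + (n + r.eval n + 1)) * (1 / 2) ^ (n + (n + r.eval n + 1))) * (1 / 2) ^ K := by
          rw [pow_add (1 / 2 : ℝ) (n + (n + r.eval n + 1)) K, mul_assoc]
      _ = (1 / 2) ^ K := by rw [two_half, one_mul]
  have t3 : ((1 : ℝ) / 2) ^ K ≤ (11 / 12) ^ K := pow_le_pow_left₀ (by norm_num) (by norm_num) _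
  linarith

/-- the oracles for which the parameters are good -/
def XA (E : Set (Polynomial ℕ)) (θ : (Alg × E) × ℕ) : Set Oracle :=
  {A | ∃ V : List Bool → List Bool, (∀ x, θ.1.1.out A x = some (V x)) ∧
    ∀ x, x ∈ par2 A ↔ Quant (2 ^ (θ.1.2 : Polynomial ℕ).eval x.length) V θ.2 true x}

theorem evA_of {M : Alg} {q : Polynomial ℕ} {k : ℕ} {A : Oracle} {V : List Bool → List Bool}
    (hM : ∀ x, M.out A x = some (V x))
    (hV : ∀ x, x ∈ par2 A ↔ Quant (2 ^ q.eval x.length) V k true x)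
    {qb r : Polynomial ℕ} (hqb : ∀ (A : Oracle) (x : List Bool),
      ∃ Q : Finset (List Bool), Q.card ≤ M.p.eval x.length ∧
        (∀ q ∈ Q, q.length ≤ qb.eval x.length) ∧
        ∀ A' : Oracle, (∀ q ∈ Q, A' q = A q) → M.out A' x = M.out A x)
    {n N : ℕ} (h1 : qb.eval (ell q k n) + 1 ≤ 2 ^ r.eval n) (h2 : 3 * mm n + 1 ≤ 2 ^ r.eval n)
    (hN : 2 ^ 2 ^ r.eval n ≤ N) : EvA M q k n N (pre N A) := by
  intro j _
  have hpl : (padq q4 (bitsOf n j)).length = mm n := by
    rw [E0.length_padq4, length_bitsOf]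
  have hlen : (bitsOf n j).length = n := length_bitsOf n j
  have hleaf : ∀ y : List Bool, y.length ≤ ell q k n →
      (V y = [true] ↔ leaf M N y (pre N A) = true) := by
    intro y hy
    obtain ⟨Q, _, hQl, hQA⟩ := hqb A y
    have h3 : M.out (orc N (pre N A)) y = M.out A y := by
      apply hQA
      intro z hz
      apply orc_pre
      have h4 := idx_lt z
      have h5 : z.length ≤ qb.eval (ell q k n) := (hQl z hz).trans (eval_mono _ hy)
      have h6 : 2 ^ (z.length + 1) ≤ 2 ^ 2 ^ r.eval n :=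
        Nat.pow_le_pow_right (by norm_num) (by omega)
      omega
    unfold leaf
    rw [h3, hM y, decide_eq_true_eq, Option.some.injEq]
  have h3 := quant_iff (m := 2 ^ q.eval n) (ell q k n) hleaf k true (bitsOf n j) (by
    rw [hlen]
    rfl)
  have h4 := hV (bitsOf n j)
  rw [hlen] at h4
  have hN' : 2 ^ (2 * (padq q4 (bitsOf n j)).length + 1) ≤ N + 1 := by
    rw [hpl]
    have : 2 ^ (2 * mm n + 1) ≤ 2 ^ 2 ^ r.eval n := Nat.pow_le_pow_right (by norm_num) (by omega)
    omega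
  have h5 := blk_par N A (padq q4 (bitsOf n j)) hN'
  have h6 : QF (2 ^ q.eval n) (leaf M N) k true (bitsOf n j) (pre N A) = true ↔
      par (blk N (padq q4 (bitsOf n j))) (pre N A) = true := by
    rw [h5, ← h3, ← h4]
    rfl
  cases hb : par (blk N (padq q4 (bitsOf n j))) (pre N A) with
  | true => exact h6.2 hb
  | false =>
    rw [← Bool.not_eq_true, h6, hb]
    simp

end Alt

open Alt in
/-- the oracles for which the parity test language is in the exponential hierarchy -/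
theorem nullA {E : Set (Polynomial ℕ)} (hE : Good E) {f : ℕ → ℝ}
    (hf : Asy E f (fun n => 3 * (11 / 12) ^ 2 ^ n)) : Null f {A | InAlt E A (par2 A)} := by
  classical
  have hc : Countable (Polynomial ℕ) := N1.countable_poly
  have hcE : Countable E := inferInstance
  refine (null_iUnion (f := f) (XA E) fun θ => ?_).mono fun A hA => ?_
  · intro δ hδ
    obtain ⟨⟨M, q⟩, k⟩ := θ
    obtain ⟨qb, hqb⟩ := Alg.out_local M
    obtain ⟨r, hr, h⟩ := exists_r hE q.2 k qb M.p
    obtain ⟨n₀, hn₀⟩ := evA_bound M q k r (fun n => by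
      have h' := h n
      have hp : 0 < 2 ^ n := by positivity
      refine ⟨?_, ?_, ?_⟩ <;> omega)
    obtain ⟨n, N, hn, hN, hb⟩ := hf r hr δ hδ n₀
    refine cover_of_event (EvA M q k n N) (XA E ((M, q), k)) (fun A hA => ?_) f δ ?_
    · obtain ⟨V, hM, hV⟩ := hA
      have h' := h n
      have hp : 0 < 2 ^ n := by positivity
      have h3 : qb.eval (ell q k n) + 1 ≤ 2 ^ r.eval n := by omega
      have h4 : 3 * mm n + 1 ≤ 2 ^ r.eval n := by omega
      exact evA_of hM hV hqb h3 h4 hN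
    · exact (mul_le_mul_of_nonneg_right (hn₀ n hn N hN) (by positivity)).trans hb
  · obtain ⟨V, ⟨M, hM⟩, q, hq, k, h⟩ := hA
    exact Set.mem_iUnion.2 ⟨((M, ⟨q, hq⟩), k), V, hM, h⟩

/-- `E` and the exponential hierarchy with linear exponents -/
theorem resAltE (f : ℕ → ℝ) (O : Set Oracle)
    (h1 : ∀ A : Oracle, (∀ L, InSpace Lin A L → InTime Lin A L) → A ∈ O)
    (h2 : ∀ A ∈ O, ∀ L, InSpace Lin A L → InAlt Lin A L) :
    Null f O ↔ ∀ ε : ℝ, 0 < ε → ∃ᶠ N : ℕ in atTop, f N ≤ (Real.logb 2 N) ^ ε := by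
  constructor
  · intro hn ε hε
    by_contra hcon
    rw [not_frequently] at hcon
    exact notNullE hε (hcon.mono fun N h => not_le.1 h) O h1 hn
  · intro hf
    exact (nullA good_Lin (asyE hf)).mono fun A hA => h2 A hA _ (par2_space good_Lin A)

/-- the same with polynomial exponents -/
theorem resAltEXP (f : ℕ → ℝ) (O : Set Oracle)
    (h1 : ∀ A : Oracle, (∀ L, InSpace Pol A L → InTime Pol A L) → A ∈ O)
    (h2 : ∀ A ∈ O, ∀ L, InSpace Pol A L → InAlt Pol A L) :
    Null f O ↔ ∀ ε : ℝ, 0 < ε → ∃ᶠ N : ℕ in atTop,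
      f N ≤ 2 ^ (Real.logb 2 (Real.logb 2 N)) ^ ε := by
  constructor
  · intro hn ε hε
    by_contra hcon
    rw [not_frequently] at hcon
    exact notNullEXP hε (hcon.mono fun N h => not_le.1 h) O h1 hn
  · intro hf
    exact (nullA good_Pol (asyEXP hf)).mono fun A hA => h2 A hA _ (par2_space good_Pol A)

end Pool.Agent.H249R3.Gau
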