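import Pool.Agent.H622R2.Exp.FinalAux
import Pool.Agent.H622R2.Exp.FinalE
import Pool.Agent.H622R2.Exp.FinalNEXP
import Pool.Agent.H622R2.Exp.Q4

/-!
# The set of oracles with `NE = coNE`

(helper249; the proof follows the one of `Pool.Agent.H622R2.Exp.K4` and
`Pool.Agent.H622R2.Exp.FinalNEXP`, with linear exponents.)
-/

set_option autoImplicit false

namespace Pool.Agent.H249R3.Gau

open Pool.Agent.NPC Pool.Agent.H620R2.Gauge Pool.Agent.H622R2.Exp Finset H568R2 Filter YAux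

theorem asyNE {f : ℕ → ℝ}
    (hf : ∀ ε : ℝ, 0 < ε → ∃ᶠ N : ℕ in Filter.atTop, f N ≤ ε * Real.logb 2 (Real.logb 2 N)) :
    Asy Lin f (fun n => 3 / 2 ^ (n / 8)) := by
  rintro q ⟨c, rfl⟩ δ hδ n₀
  obtain ⟨n₁, hn₁⟩ := (ev_non δ hδ).exists_forall_of_atTop
  set m := max (max n₀ n₁) 2 with hm
  have hcpos : (0:ℝ) < (c:ℝ) + 1 := by positivity
  obtain ⟨N, hN1, hN2⟩ := ((hf (1 / (16 * ((c:ℝ) + 1))) (by positivity)).and_eventually
    (eventually_ge_atTop (2 ^ 2 ^ ((c + 1) * (m + 1))))).exists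
  obtain ⟨n, hn, h1, h2, h3⟩ := choose_lin (c + 1) m (by omega) hN2
  have hn0 : n₀ ≤ n := (le_max_left n₀ n₁).trans ((le_max_left _ _).trans hn)
  have hn1 : n₁ ≤ n := (le_max_right n₀ n₁).trans ((le_max_left _ _).trans hn)
  have hn2 : 2 ≤ n := (le_max_right _ _).trans hn
  refine ⟨n, N, hn0, ?_, ?_⟩
  · rw [eval_lin]
    refine le_trans (Nat.pow_le_pow_right (by norm_num) (Nat.pow_le_pow_right (by norm_num) ?_)) h1
    exact Nat.mul_le_mul_right _ (by omega)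
  · apply hn₁ n hn1
    refine hN1.trans ?_
    have h4 : Real.logb 2 (Real.logb 2 N) ≤ ((c + 1 : ℕ) : ℝ) * ((n : ℝ) + 2) := by
      rw [Real.logb_le_iff_le_rpow (by norm_num) (by linarith)]
      exact h3
    have h5 : 1 / (16 * ((c:ℝ) + 1)) * Real.logb 2 (Real.logb 2 N) ≤
        1 / (16 * ((c:ℝ) + 1)) * (((c + 1 : ℕ) : ℝ) * ((n : ℝ) + 2)) :=
      mul_le_mul_of_nonneg_left h4 (by positivity)
    refine h5.trans ?_
    push_cast
    have h6 : 1 / (16 * ((c:ℝ) + 1)) * (((c:ℝ) + 1) * ((n:ℝ) + 2)) = ((n:ℝ) + 2) / 16 := by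
      field_simp
    rw [h6]
    linarith

theorem notNullNE {f : ℕ → ℝ} {ε : ℝ} (hε : 0 < ε)
    (hf : ∀ᶠ N : ℕ in Filter.atTop, ε * Real.logb 2 (Real.logb 2 N) < f N) (O : Set Oracle)
    (hO : ∀ A : Oracle, (∀ L, InNTime Lin A L → InNTime Lin A Lᶜ) → A ∈ O) : ¬ Null f O := by
  classical
  obtain ⟨K, hK⟩ := sumC_Lin hε
  obtain ⟨d, r, Φ, hr, hgr, hΦ1, hΦ2⟩ := exists_codingC good_Lin (fun k => 2 ^ k)
    (fun _ k => 2 ^ k + 1) (fun _ e => Polynomial.C (K * 4 ^ e) * (Polynomial.X + 1))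
    (fun _ e => ⟨K * 4 ^ e, rfl⟩)
  have hr2 : ∀ e n, K * 4 ^ e * (n + 1) ≤ (r e).eval n := by
    intro e n
    refine le_trans (le_of_eq ?_) (hgr e n)
    simp only [Polynomial.eval_mul, Polynomial.eval_C, Polynomial.eval_add, Polynomial.eval_X,
      Polynomial.eval_one]
  refine not_null_ev f Φ {y | ∃ e k i, i < 2 ^ k + 1 ∧ y = codeC (r e) (fun k => 2 ^ k) e k i}
    ?_ ?_ O ?_
  · intro B y hy
    apply hΦ1
    intro e k i hi hyx
    exact hy ⟨e, k, i, hi, hyx⟩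
  · filter_upwards [hK r hr2, hf] with N h1 h2
    have h3 := countC_le d r (fun k => 2 ^ k) (fun _ k => 2 ^ k + 1) N
    exact (Nat.cast_le.2 h3).trans (h1.trans h2.le)
  · intro B
    apply hO
    intro L hL
    obtain ⟨e, V, q, -, hV, hq, hL', hA⟩ := hΦ2 B L 0 hL
    obtain ⟨c, hc⟩ := hq
    obtain ⟨c', hc'⟩ := hr e
    refine compl_of_census hV hL' e (r e)
      (Polynomial.C (2 + 2 * c + 2 * c' + 6) * (Polynomial.X + 1)) ⟨_, rfl⟩ (fun k => 2 ^ k)
      (fun k => 2 ^ k + 1) Nat.size KAux.upoly_size KAux.upoly_two_pow_size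
      (KAux.upoly_two_pow_size.add (UPoly.const 1)) (fun n => (Nat.lt_size_self n).le) ?_
      (fun n => KAux.cens_lt L _) hA
    intro n
    refine (KAux.len_le q (r e) (KAux.two_pow_size_le n)).trans ?_
    apply Nat.pow_le_pow_right (by norm_num)
    rw [hc, hc']
    simp only [Polynomial.eval_mul, Polynomial.eval_C, Polynomial.eval_add, Polynomial.eval_X,
      Polynomial.eval_one]
    nlinarith [Nat.zero_le (c * n), Nat.zero_le (c' * n)]

theorem mul_loglog_le {ε : ℝ} (hε : 0 < ε) : ∀ᶠ N : ℕ in atTop,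
    Real.logb 2 (Real.logb 2 N) ≤ (Real.logb 2 N) ^ ε := loglog_le hε

/-- `NE` versus `coNE` -/
theorem resNE (f : ℕ → ℝ) :
    (Null f {A : Oracle | ∀ L, InNTime Lin A L ↔ InNTime Lin A Lᶜ} ↔
      ∀ ε : ℝ, 0 < ε → ∃ᶠ N : ℕ in atTop, f N ≤ ε * Real.logb 2 (Real.logb 2 N)) ∧
    (Null f {A : Oracle | (∀ L, InNTime Lin A L ↔ InNTime Lin A Lᶜ) ∧
        ¬ ∀ L, InTime Lin A L ↔ InNTime Lin A L} ↔
      ∀ ε : ℝ, 0 < ε → ∃ᶠ N : ℕ in atTop, f N ≤ ε * Real.logb 2 (Real.logb 2 N)) := by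
  have key : ∀ f : ℕ → ℝ, (Null f {A : Oracle | ∀ L, InNTime Lin A L ↔ InNTime Lin A Lᶜ} ↔
      ∀ ε : ℝ, 0 < ε → ∃ᶠ N : ℕ in atTop, f N ≤ ε * Real.logb 2 (Real.logb 2 N)) := by
    intro f
    constructor
    · intro hn ε hε
      by_contra hcon
      rw [not_frequently] at hcon
      refine notNullNE hε (hcon.mono fun N h => not_le.1 h) _ ?_ hn
      intro A hA L
      refine ⟨hA L, fun h => ?_⟩
      have := hA _ h
      rwa [compl_compl] at this
    · intro hf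
      exact (nullC good_Lin (asyNE hf)).mono fun A hA => (hA _).1 (hit2_ntime good_Lin A)
  refine ⟨key f, ⟨fun hn => ?_, fun hf => ((key f).2 hf).mono fun A hA => hA.1⟩⟩
  by_contra hcon
  push Not at hcon
  obtain ⟨ε, hε, hcon⟩ := hcon
  -- the smaller gauge
  set g : ℕ → ℝ := fun N => min (f N) (Real.logb 2 (Real.logb 2 N)) with hg
  have hgE : Null g {A : Oracle | ∀ L, InTime Lin A L ↔ InNTime Lin A L} := by
    refine (resE g).2.1.2 fun ε' hε' => ?_
    exact ((loglog_le hε').mono fun N h => (min_le_right _ _).trans h).frequently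
  have hgN : Null g {A : Oracle | (∀ L, InNTime Lin A L ↔ InNTime Lin A Lᶜ) ∧
        ¬ ∀ L, InTime Lin A L ↔ InNTime Lin A L} :=
    hn.anti fun N => min_le_left _ _
  have h1 : Null g {A : Oracle | ∀ L, InNTime Lin A L ↔ InNTime Lin A Lᶜ} := by
    refine (null_union hgE hgN).mono fun A hA => ?_
    by_cases h : ∀ L, InTime Lin A L ↔ InNTime Lin A L
    · exact Or.inl h
    · exact Or.inr ⟨hA, h⟩
  have h2 := (key g).1 h1 (min ε (1 / 2)) (by positivity)
  apply h2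
  have h3 : ∀ᶠ N : ℕ in atTop, ε * Real.logb 2 (Real.logb 2 N) < f N := hcon
  filter_upwards [h3, loglog_tendsto.eventually_gt_atTop 1] with N h4 h5
  rw [not_le, hg]
  apply lt_min
  · exact lt_of_le_of_lt (mul_le_mul_of_nonneg_right (min_le_left _ _) (by linarith)) h4
  · have h6 : min ε (1 / 2) * Real.logb 2 (Real.logb 2 N) ≤
        1 / 2 * Real.logb 2 (Real.logb 2 N) :=
      mul_le_mul_of_nonneg_right (min_le_right _ _) (by linarith)
    linarith

end Pool.Agent.H249R3.Gau
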