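import Pool.Agent.H249R3.Gau.Alt
import Pool.Agent.H249R3.Gau.NE

/-!
# The set of the oracles with `NE = coNE` and `NE ≠ ESPACE`

(helper249)
-/

set_option autoImplicit false

namespace Pool.Agent.H249R3.Gau

open Pool.Agent.NPC Pool.Agent.H620R2.Gauge Pool.Agent.H622R2.Exp Finset H568R2 Filter YAux

theorem resCo (f : ℕ → ℝ) :
    Null f {A : Oracle | (∀ L, InNTime Lin A L ↔ InNTime Lin A Lᶜ) ∧
        ¬ ∀ L, InSpace Lin A L → InAlt Lin A L} ↔
      ∀ ε : ℝ, 0 < ε → ∃ᶠ N : ℕ in atTop, f N ≤ ε * Real.logb 2 (Real.logb 2 N) := by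
  refine ⟨fun hn => ?_, fun hf => ((resNE f).1.2 hf).mono fun A hA => hA.1⟩
  by_contra hcon
  push Not at hcon
  obtain ⟨ε, hε, hcon⟩ := hcon
  -- the smaller gauge
  set g : ℕ → ℝ := fun N => min (f N) (Real.logb 2 (Real.logb 2 N)) with hg
  have hgE : Null g {A : Oracle | ∀ L, InSpace Lin A L → InAlt Lin A L} := by
    refine (resAltE g _ (fun A hA L hL => (hA L hL).isNTime.isAlt) fun A hA => hA).2
      fun ε' hε' => ?_
    exact ((loglog_le hε').mono fun N h => (min_le_right _ _).trans h).frequently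
  have hgN : Null g {A : Oracle | (∀ L, InNTime Lin A L ↔ InNTime Lin A Lᶜ) ∧
        ¬ ∀ L, InSpace Lin A L → InAlt Lin A L} :=
    hn.anti fun N => min_le_left _ _
  have h1 : Null g {A : Oracle | ∀ L, InNTime Lin A L ↔ InNTime Lin A Lᶜ} := by
    refine (null_union hgE hgN).mono fun A hA => ?_
    by_cases h : ∀ L, InSpace Lin A L → InAlt Lin A L
    · exact Or.inl h
    · exact Or.inr ⟨hA, h⟩
  have h2 := (resNE g).1.1 h1 (min ε (1 / 2)) (by positivity)
  apply h2
  have h3 : ∀ᶠ N : ℕ in atTop, ε * Real.logb 2 (Real.logb 2 N) < f N := hcon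
  filter_upwards [h3, loglog_tendsto.eventually_gt_atTop 1] with N h4 h5
  rw [not_le, hg]
  apply lt_min
  · exact lt_of_le_of_lt (mul_le_mul_of_nonneg_right (min_le_left _ _) (by linarith)) h4
  · have h6 : min ε (1 / 2) * Real.logb 2 (Real.logb 2 N) ≤
        1 / 2 * Real.logb 2 (Real.logb 2 N) :=
      mul_le_mul_of_nonneg_right (min_le_right _ _) (by linarith)
    linarith

end Pool.Agent.H249R3.Gau
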